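import Pool.Agent.W221.NS.Stm2
import Pool.Agent.W917.MD.MBD

/-!
# ME-PERL: a periodic solution, cut off, is a local solution
-/

set_option maxHeartbeats 400000

namespace Pool.Agent.W975.ME

open MeasureTheory Set Metric Filter Topology
open scoped ContDiff
open H459R3.NS W221.NS

theorem zt_smooth : ContDiff ℝ ∞ (fun x : V => zt x) := zt.contDiff

theorem zt_one {x : V} (hx : x ∈ ball (0 : V) 3) : zt x = 1 :=
  zt.one_of_mem_closedBall (ball_subset_closedBall hx)

theorem zt_zero {x : V} (hx : x ∉ ball (0 : V) 4) : zt x = 0 := by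
  have h : x ∉ Function.support zt := by
    rw [zt.support_eq]
    exact hx
  exact Function.notMem_support.1 h

theorem zt_zero5 {x : V} (hx : x ∉ ball (0 : V) 5) : ∀ᶠ y in 𝓝 x, zt y = 0 := by
  have h1 : (closedBall (0 : V) 4)ᶜ ∈ 𝓝 x := by
    refine isClosed_closedBall.isOpen_compl.mem_nhds ?_
    intro h
    apply hx
    rw [mem_closedBall] at h
    rw [mem_ball]
    linarith
  filter_upwards [h1] with y hy
  exact zt_zero fun h => hy (ball_subset_closedBall h)

theorem pd_zt_bd : ∃ K : ℝ, 0 ≤ K ∧ ∀ (i : Fin 3) (x : V), |pd i (fun y : V => zt y) x| ≤ K := by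
  have h1 : ∀ i : Fin 3, ∃ K : ℝ, ∀ x : V, ‖pd i (fun y : V => zt y) x‖ ≤ K := by
    intro i
    have hc : Continuous (pd i (fun y : V => zt y)) := by
      unfold pd
      exact (zt_smooth.continuous_fderiv (by norm_num)).clm_apply continuous_const
    have hs : HasCompactSupport (pd i (fun y : V => zt y)) :=
      zt.hasCompactSupport.fderiv_apply ℝ (Pi.single i 1)
    exact hc.bounded_above_of_compact_support hs
  choose K hK using h1
  refine ⟨∑ i, |K i|, Finset.sum_nonneg fun i _ => abs_nonneg _, fun i x => ?_⟩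
  have h2 := hK i x
  rw [Real.norm_eq_abs] at h2
  refine (h2.trans (le_abs_self _)).trans ?_
  exact Finset.single_le_sum (f := fun i => |K i|) (fun _ _ => abs_nonneg _) (Finset.mem_univ i)

theorem pd_congr {f g : V → ℝ} {x : V} (h : f =ᶠ[𝓝 x] g) (i : Fin 3) :
    pd i f x = pd i g x := by
  unfold pd
  rw [h.fderiv_eq]

theorem pd_congr_ev {f g : V → ℝ} {x : V} (h : f =ᶠ[𝓝 x] g) (i : Fin 3) :
    pd i f =ᶠ[𝓝 x] pd i g := by
  filter_upwards [h.eventuallyEq_nhds] with y hy
  exact pd_congr hy i

theorem pd_mul' {f g : V → ℝ} (hf : ContDiff ℝ ∞ f) (hg : ContDiff ℝ ∞ g) (i : Fin 3) (x : V) :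
    pd i (fun y => f y * g y) x = pd i f x * g x + f x * pd i g x := by
  unfold pd
  have h1 : DifferentiableAt ℝ f x := (hf.differentiable (by norm_num)) x
  have h2 : DifferentiableAt ℝ g x := (hg.differentiable (by norm_num)) x
  rw [fderiv_fun_mul h1 h2]
  simp only [add_apply, smul_apply, smul_eq_mul, ContinuousLinearMap.add_apply,
    ContinuousLinearMap.smul_apply]
  ring

theorem dv_zt {v : V → V} (hv : ContDiff ℝ ∞ v) (hd : ∀ x, ∑ i, pd i (fun y => v y i) x = 0)
    (x : V) : dv (fun x => zt x • v x) x = ∑ i, pd i (fun y : V => zt y) x * v x i := by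
  unfold dv
  have h1 : ∀ i, pd i (fun y => (zt y • v y) i) x =
      pd i (fun y : V => zt y) x * v x i + zt x * pd i (fun y => v y i) x := by
    intro i
    have hvi : ContDiff ℝ ∞ (fun y => v y i) := contDiff_pi.1 hv i
    exact pd_mul' zt_smooth hvi i x
  rw [Finset.sum_congr rfl fun i _ => h1 i, Finset.sum_add_distrib, ← Finset.mul_sum, hd,
    mul_zero, add_zero]

theorem nsq_zt (v : V → V) (x : V) : nsq (fun x => zt x • v x) x = zt x ^ 2 * nsq v x := by
  unfold nsq
  rw [Finset.mul_sum]
  refine Finset.sum_congr rfl fun i _ => ?_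
  show (zt x * v x i) ^ 2 = _
  ring

theorem nsq_nonneg (v : V → V) (x : V) : 0 ≤ nsq v x :=
  Finset.sum_nonneg fun i _ => sq_nonneg _

theorem cont_nsq {v : V → V} (hv : Continuous v) : Continuous (nsq v) := by
  unfold nsq
  fun_prop

theorem int_ball {f : V → ℝ} (hf : Continuous f) (r : ℝ) : IntegrableOn f (ball (0 : V) r) :=
  (hf.locallyIntegrable.integrableOn_isCompact (isCompact_closedBall (0 : V) r)).mono_set
    ball_subset_closedBall

theorem int_of_ball {f : V → ℝ} (hf : Continuous f) (h0 : ∀ x ∉ ball (0 : V) 5, f x = 0) :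
    Integrable f ∧ ∫ x, f x = ∫ x in ball (0 : V) 5, f x := by
  constructor
  · refine hf.integrable_of_hasCompactSupport ?_
    refine HasCompactSupport.intro (isCompact_closedBall (0 : V) 5) ?_
    intro x hx
    exact h0 x fun h => hx (ball_subset_closedBall h)
  · exact (setIntegral_eq_integral_of_forall_compl_eq_zero h0).symm

theorem sum3_sq (a b : Fin 3 → ℝ) (K : ℝ) (ha : ∀ i, |a i| ≤ K) :
    (∑ i, a i * b i) ^ 2 ≤ 3 * K ^ 2 * ∑ i, b i ^ 2 := by
  have h1 := Finset.sum_mul_sq_le_sq_mul_sq Finset.univ a b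
  have h2 : ∑ i, a i ^ 2 ≤ 3 * K ^ 2 := by
    have h3 : ∀ i ∈ (Finset.univ : Finset (Fin 3)), a i ^ 2 ≤ K ^ 2 := by
      intro i _
      rw [← sq_abs]
      exact pow_le_pow_left₀ (abs_nonneg _) (ha i) 2
    refine (Finset.sum_le_sum h3).trans ?_
    simp
  exact h1.trans (mul_le_mul_of_nonneg_right h2 (Finset.sum_nonneg fun i _ => sq_nonneg _))

theorem t_PERL : S_PERL := by
  obtain ⟨N, hN⟩ := Pool.Agent.W917.MD.ball_le 5
  obtain ⟨K, hK0, hK⟩ := pd_zt_bd
  obtain ⟨C, hC⟩ : ∃ C : ℝ, C = N + 3 * K ^ 2 * N + 1 := ⟨_, rfl⟩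
  have hN0 : (0 : ℝ) ≤ N := Nat.cast_nonneg N
  have hC1 : 1 ≤ C := by
    rw [hC]
    have : 0 ≤ 3 * K ^ 2 * N := by positivity
    linarith
  have hCN : N ≤ C ^ 2 := by
    have h1 : N ≤ C := by
      rw [hC]
      have : 0 ≤ 3 * K ^ 2 * N := by positivity
      linarith
    nlinarith
  have hCK : 3 * K ^ 2 * N ≤ C ^ 2 := by
    have h1 : 3 * K ^ 2 * N ≤ C := by
      rw [hC]
      linarith
    nlinarith
  refine ⟨C, by linarith, fun T u p hT h => ?_⟩
  have hE0 : 0 ≤ energy (u 0) := energy_nonneg _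
  have hE : (C * √(energy (u 0))) ^ 2 = C ^ 2 * energy (u 0) := by
    rw [mul_pow, Real.sq_sqrt hE0]
  have hcu : ∀ t ∈ Ico 0 T, ContDiff ℝ ∞ (u t) := by
    intro t ht'
    have h1 := h.smooth_u
    rw [contDiff_iff_contDiffAt]
    intro y
    have h2 : ContDiffWithinAt ℝ ∞ (fun y : V => (t, y)) univ y :=
      (contDiff_prodMk_right t).contDiffWithinAt
    have h3 := (h1 (t, y) ⟨ht', mem_univ _⟩).comp y h2 (fun z _ => ⟨ht', mem_univ _⟩)
    exact contDiffWithinAt_univ.1 h3
  have hIoo : ∀ t ∈ Ioo 0 T, t ∈ Ico 0 T := fun t ht => ⟨ht.1.le, ht.2⟩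
  -- bound for the integral of `|u|²` over the ball
  have hball : ∀ t ∈ Ico 0 T, ∫ x in ball (0 : V) 5, nsq (u t) x ≤ N * energy (u 0) := by
    intro t ht
    have h1 := hN (nsq (u t)) (cont_nsq (hcu t ht).continuous) (fun i x => by
      unfold nsq
      rw [h.per_u t ht i x]) (nsq_nonneg _) 0
    have h2 : ∫ z in cube, nsq (u t) z = energy (u t) := by
      unfold nsq energy
      rw [integral_finset_sum]
      intro i _
      exact integrableOn_cube (((continuous_apply i).comp (hcu t ht).continuous).pow 2)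
    rw [h2] at h1
    exact h1.trans (mul_le_mul_of_nonneg_left (h.energy_le one_pos ht) hN0)
  have hsub : Ioo 0 T ×ˢ (univ : Set V) ⊆ Ico 0 T ×ˢ univ :=
    prod_mono Ioo_subset_Ico_self (subset_refl _)
  have hzs : ContDiff ℝ ∞ (fun z : ℝ × V => zt z.2) := zt_smooth.comp contDiff_snd
  have hcz : ∀ t ∈ Ico 0 T, ContDiff ℝ ∞ (fun x => zt x • u t x) := fun t ht =>
    zt_smooth.smul (hcu t ht)
  have hloc : ∀ (t : ℝ) (i : Fin 3) (x : V), x ∈ ball (0 : V) 3 →
      (fun y => (zt y • u t y) i) =ᶠ[𝓝 x] fun y => u t y i := by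
    intro t i x hx
    filter_upwards [isOpen_ball.mem_nhds hx] with y hy
    show zt y * u t y i = u t y i
    rw [zt_one hy, one_mul]
  refine
    { openO := isOpen_ball
      smooth_u := hzs.contDiffOn.smul (h.smooth_u.mono hsub)
      smooth_p := hzs.contDiffOn.mul (h.smooth_p.mono hsub)
      divfree := ?_
      momentum := ?_
      en_int := ?_
      en := ?_
      dv_int := ?_
      dvb := ?_ }
  · intro t ht x hx
    have h1 := h.divfree t (hIoo t ht) x
    unfold dv
    rw [← h1]
    exact Finset.sum_congr rfl fun i _ => pd_congr (hloc t i x hx) i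
  · intro t ht x hx i
    have h1 := h.momentum t ht x i
    have e1 : (fun s => (zt x • u s x) i) = fun s => u s x i := by
      funext s
      show zt x * u s x i = u s x i
      rw [zt_one hx, one_mul]
    have e2 : ∀ j, (zt x • u t x) j = u t x j := by
      intro j
      show zt x * u t x j = u t x j
      rw [zt_one hx, one_mul]
    have e3 : lap (fun y => (zt y • u t y) i) x = lap (fun y => u t y i) x := by
      unfold lap
      exact Finset.sum_congr rfl fun j _ => pd_congr (pd_congr_ev (hloc t i x hx) j) j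
    have e4 : pd i (fun x => zt x * p t x) x = pd i (p t) x := by
      refine pd_congr ?_ i
      filter_upwards [isOpen_ball.mem_nhds hx] with y hy
      rw [zt_one hy, one_mul]
    have e5 : adv (fun x => zt x • u t x) (fun y => (zt y • u t y) i) x =
        ∑ j, u t x j * pd j (fun y => u t y i) x := by
      unfold adv
      refine Finset.sum_congr rfl fun j _ => ?_
      rw [pd_congr (hloc t i x hx) j]
      show (zt x • u t x) j * _ = _
      rw [e2 j]
    show deriv (fun s => (zt x • u s x) i) t + adv (fun x => zt x • u t x)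
      (fun y => (zt y • u t y) i) x = lap (fun y => (zt y • u t y) i) x -
        pd i (fun x => zt x * p t x) x
    rw [e1, e3, e4, e5, h1, one_mul]
    rfl
  · intro t ht
    exact (int_of_ball (cont_nsq (hcz t (hIoo t ht)).continuous) (fun x hx => by
      rw [nsq_zt, (zt_zero5 hx).self_of_nhds]
      ring)).1
  · intro t ht
    have h1 := (int_of_ball (cont_nsq (hcz t (hIoo t ht)).continuous) (fun x hx => by
      rw [nsq_zt, (zt_zero5 hx).self_of_nhds]
      ring)).2
    show ∫ x, nsq (fun x => zt x • u t x) x ≤ _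
    rw [h1, hE]
    have h2 : ∫ x in ball (0 : V) 5, nsq (fun x => zt x • u t x) x ≤
        ∫ x in ball (0 : V) 5, nsq (u t) x := by
      refine setIntegral_mono_on (int_ball (cont_nsq (hcz t (hIoo t ht)).continuous) 5)
        (int_ball (cont_nsq (hcu t (hIoo t ht)).continuous) 5) measurableSet_ball ?_
      intro x _
      rw [nsq_zt]
      refine mul_le_of_le_one_left (nsq_nonneg _ _) ?_
      exact pow_le_one₀ zt.nonneg zt.le_one
    refine h2.trans ((hball t (hIoo t ht)).trans ?_)
    exact mul_le_mul_of_nonneg_right hCN hE0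
  · intro t ht
    have hcd : Continuous fun x => ∑ i, pd i (fun y : V => zt y) x * u t x i := by
      refine continuous_finset_sum _ fun i _ => ?_
      refine Continuous.mul ?_ ((continuous_apply i).comp (hcu t (hIoo t ht)).continuous)
      unfold pd
      exact (zt_smooth.continuous_fderiv (by norm_num)).clm_apply continuous_const
    have h0 : ∀ x ∉ ball (0 : V) 5, (∑ i, pd i (fun y : V => zt y) x * u t x i) ^ 2 = 0 := by
      intro x hx
      have h1 : ∀ i, pd i (fun y : V => zt y) x = 0 := by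
        intro i
        have h2 : (fun y : V => zt y) =ᶠ[𝓝 x] fun _ => 0 := zt_zero5 hx
        rw [pd_congr h2 i]
        unfold pd
        simp
      simp [h1]
    have h1 := int_of_ball (hcd.pow 2) h0
    refine h1.1.congr (Eventually.of_forall fun x => ?_)
    show _ = dv (fun x => zt x • u t x) x ^ 2
    rw [dv_zt (hcu t (hIoo t ht)) (h.divfree t (hIoo t ht))]
    rfl
  · intro t ht
    have hcd : Continuous fun x => ∑ i, pd i (fun y : V => zt y) x * u t x i := by
      refine continuous_finset_sum _ fun i _ => ?_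
      refine Continuous.mul ?_ ((continuous_apply i).comp (hcu t (hIoo t ht)).continuous)
      unfold pd
      exact (zt_smooth.continuous_fderiv (by norm_num)).clm_apply continuous_const
    have h0 : ∀ x ∉ ball (0 : V) 5, (∑ i, pd i (fun y : V => zt y) x * u t x i) ^ 2 = 0 := by
      intro x hx
      have h1 : ∀ i, pd i (fun y : V => zt y) x = 0 := by
        intro i
        have h2 : (fun y : V => zt y) =ᶠ[𝓝 x] fun _ => 0 := zt_zero5 hx
        rw [pd_congr h2 i]
        unfold pd
        simp
      simp [h1]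
    have h1 : _ ∧ ∫ x, (∑ i, pd i (fun y : V => zt y) x * u t x i) ^ 2 =
        ∫ x in ball (0 : V) 5, (∑ i, pd i (fun y : V => zt y) x * u t x i) ^ 2 :=
      int_of_ball (hcd.pow 2) h0
    have h2 : ∫ x, dv (fun x => zt x • u t x) x ^ 2 =
        ∫ x, (∑ i, pd i (fun y : V => zt y) x * u t x i) ^ 2 := by
      refine integral_congr_ae (Eventually.of_forall fun x => ?_)
      show dv (fun x => zt x • u t x) x ^ 2 = _
      rw [dv_zt (hcu t (hIoo t ht)) (h.divfree t (hIoo t ht))]
    show ∫ x, dv (fun x => zt x • u t x) x ^ 2 ≤ _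
    rw [h2, h1.2, hE]
    have h3 : ∫ x in ball (0 : V) 5, (∑ i, pd i (fun y : V => zt y) x * u t x i) ^ 2 ≤
        ∫ x in ball (0 : V) 5, 3 * K ^ 2 * nsq (u t) x := by
      refine setIntegral_mono_on (int_ball (hcd.pow 2) 5)
        ((int_ball (cont_nsq (hcu t (hIoo t ht)).continuous) 5).const_mul _)
        measurableSet_ball ?_
      intro x _
      exact sum3_sq _ _ K fun i => hK i x
    rw [integral_const_mul] at h3
    refine h3.trans ?_
    calc 3 * K ^ 2 * ∫ x in ball (0 : V) 5, nsq (u t) x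
        ≤ 3 * K ^ 2 * (N * energy (u 0)) :=
          mul_le_mul_of_nonneg_left (hball t (hIoo t ht)) (by positivity)
      _ = 3 * K ^ 2 * N * energy (u 0) := by ring
      _ ≤ C ^ 2 * energy (u 0) := mul_le_mul_of_nonneg_right hCK hE0

end Pool.Agent.W975.ME
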